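import Mathlib

/-!
# A lower bound for the generalised `L₁` discrepancy with nonnegative weights
-/

set_option autoImplicit false

open MeasureTheory Set

namespace Pool.Agent.Zk73.L1

/-- The unit cube `[0,1]^d`. -/
def cube (d : ℕ) : Set (Fin d → ℝ) := Icc 0 1

/-- `∑_k a_k 1[t_k ≤ x]`. -/
noncomputable def cdf {d N : ℕ} (t : Fin N → Fin d → ℝ) (a : Fin N → ℝ) (x : Fin d → ℝ) : ℝ :=
  ∑ k, (Ici (t k)).indicator (fun _ => a k) x

/-- The deviation at `x`. -/
noncomputable def dev {d N : ℕ} (t : Fin N → Fin d → ℝ) (a : Fin N → ℝ) (x : Fin d → ℝ) : ℝ :=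
  |cdf t a x - ∏ i, x i|

/-- The generalised `L₁` discrepancy of nodes `t` with weights `a`. -/
noncomputable def disc {d N : ℕ} (t : Fin N → Fin d → ℝ) (a : Fin N → ℝ) : ℝ :=
  ∫ x in cube d, dev t a x

/-- Halve the `i`-th coordinate. -/
noncomputable def half {d : ℕ} (i : Fin d) (x : Fin d → ℝ) : Fin d → ℝ :=
  Function.update x i (x i / 2)

/-- The local density factor. -/
noncomputable def psi (s u : ℝ) : ℝ :=
  (Icc s 1).indicator (fun u => u * (if u < 2 * s then 4 / 3 else 1)) u

lemma psi_nonneg {s : ℝ} (hs : 0 ≤ s) (u : ℝ) : 0 ≤ psi s u := by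
  unfold psi
  by_cases hu : u ∈ Icc s 1
  · rw [indicator_of_mem hu]
    have : 0 ≤ u := hs.trans hu.1
    split_ifs <;> positivity
  · rw [indicator_of_notMem hu]

lemma psi_eq {s : ℝ} (hs : 0 ≤ s) (u : ℝ) :
    psi s u = (Icc s 1).indicator (fun u => (4 / 3) * u) u -
      (Icc (2 * s) 1).indicator (fun u => (1 / 3) * u) u := by
  unfold psi
  by_cases hu : u ∈ Icc s 1
  · rw [indicator_of_mem hu, indicator_of_mem hu]
    by_cases h2 : u < 2 * s
    · rw [if_pos h2, indicator_of_notMem (fun h => absurd h.1 (not_le.2 h2))]; ring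
    · have h3 : u ∈ Icc (2 * s) 1 := ⟨not_lt.1 h2, hu.2⟩
      rw [if_neg h2, indicator_of_mem h3]; ring
  · rw [indicator_of_notMem hu, indicator_of_notMem hu, indicator_of_notMem, sub_zero]
    intro h
    exact hu ⟨by linarith [h.1], h.2⟩

lemma integral_Icc_id (c : ℝ) (s : ℝ) (hs : s ≤ 1) :
    ∫ u in Icc s 1, c * u = c * ((1 - s ^ 2) / 2) := by
  rw [integral_Icc_eq_integral_Ioc, ← intervalIntegral.integral_of_le hs,
    intervalIntegral.integral_const_mul, integral_id]
  ring

lemma integral_psi_le {s : ℝ} (hs : 0 ≤ s) : ∫ u, psi s u ≤ 1 / 2 := by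
  have h1 : ∀ c r : ℝ, Integrable ((Icc r 1).indicator fun u : ℝ => c * u) := fun c r =>
    (integrable_indicator_iff measurableSet_Icc).2
      ((continuous_const.mul continuous_id).continuousOn.integrableOn_Icc)
  have h2 : ∫ u, psi s u = (∫ u in Icc s 1, (4 / 3 : ℝ) * u) - ∫ u in Icc (2 * s) 1, (1 / 3 : ℝ) * u := by
    rw [← integral_indicator measurableSet_Icc, ← integral_indicator measurableSet_Icc,
      ← integral_sub (h1 _ _) (h1 _ _)]
    exact integral_congr_ae (Filter.Eventually.of_forall fun u => psi_eq hs u)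
  rw [h2]
  rcases le_or_gt s 1 with hs1 | hs1
  · rw [integral_Icc_id _ _ hs1]
    rcases le_or_gt (2 * s) 1 with hs2 | hs2
    · rw [integral_Icc_id _ _ hs2]; nlinarith
    · rw [Icc_eq_empty (not_le.2 hs2)]
      simp only [Measure.restrict_empty, integral_zero_measure]
      nlinarith
  · rw [Icc_eq_empty (not_le.2 hs1), Icc_eq_empty (not_le.2 (by linarith : 1 < 2 * s))]
    simp

section pointwise

variable {d N : ℕ} (t : Fin N → Fin d → ℝ) (a : Fin N → ℝ)

lemma prod_half (i : Fin d) (x : Fin d → ℝ) : ∏ j, half i x j = (∏ j, x j) / 2 := by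
  unfold half
  rw [Finset.prod_update_of_mem (Finset.mem_univ i),
    ← Finset.mul_prod_erase Finset.univ x (Finset.mem_univ i)]
  rw [Finset.erase_eq]
  ring

/-- number of close coordinates -/
noncomputable def cl (x : Fin d → ℝ) (s : Fin d → ℝ) : ℕ :=
  (Finset.univ.filter fun i => x i < 2 * s i).card

lemma cdf_sub_half {x : Fin d → ℝ} (hx : x ∈ cube d) (i : Fin d) :
    cdf t a x - cdf t a (half i x) =
      ∑ k, (Ici (t k)).indicator (fun _ => a k) x * (if x i < 2 * t k i then 1 else 0) := by
  unfold cdf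
  rw [← Finset.sum_sub_distrib]
  refine Finset.sum_congr rfl fun k _ => ?_
  have hxi : 0 ≤ x i := hx.1 i
  by_cases hk : t k ≤ x
  · rw [indicator_of_mem (mem_Ici.2 hk)]
    by_cases hi : x i < 2 * t k i
    · rw [indicator_of_notMem, if_pos hi]; · ring
      intro h
      have := (mem_Ici.1 h) i
      simp only [half, Function.update_self] at this
      linarith
    · rw [indicator_of_mem, if_neg hi]; · ring
      rw [mem_Ici]
      intro j
      unfold half
      by_cases hj : j = i
      · subst hj; simp only [Function.update_self]; linarith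
      · rw [Function.update_of_ne hj]; exact hk j
  · rw [indicator_of_notMem (fun h => hk (mem_Ici.1 h)), indicator_of_notMem]
    · ring
    · intro h
      apply hk
      refine (mem_Ici.1 h).trans ?_
      intro j
      unfold half
      by_cases hj : j = i
      · subst hj; simp only [Function.update_self]; linarith
      · rw [Function.update_of_ne hj]

lemma sum_cdf_sub_half {x : Fin d → ℝ} (hx : x ∈ cube d) :
    ∑ i, (cdf t a x - cdf t a (half i x)) =
      ∑ k, (Ici (t k)).indicator (fun _ => a k) x * (cl x (t k) : ℝ) := by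
  simp only [cdf_sub_half t a hx]
  rw [Finset.sum_comm]
  refine Finset.sum_congr rfl fun k _ => ?_
  rw [← Finset.mul_sum]
  congr 1
  unfold cl
  rw [Finset.sum_boole]

lemma prod_psi {x : Fin d → ℝ} (hx : x ∈ cube d) {s : Fin d → ℝ} (hs : s ≤ x) :
    ∏ i, psi (s i) (x i) = (∏ i, x i) * (4 / 3) ^ cl x s := by
  unfold cl psi
  have : ∀ i, (Icc (s i) 1).indicator (fun u => u * (if u < 2 * s i then (4:ℝ) / 3 else 1)) (x i) =
      x i * (if x i < 2 * s i then (4:ℝ) / 3 else 1) := fun i => by
    rw [indicator_of_mem]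
    exact ⟨hs i, hx.2 i⟩
  simp only [this]
  rw [Finset.prod_mul_distrib, Finset.prod_ite]
  rw [Finset.prod_const, Finset.prod_const_one, mul_one]

/-- The main pointwise inequality. -/
lemma pointwise (hd : 1 ≤ d) (ht : ∀ k i, 0 ≤ t k i) (ha : ∀ k, 0 ≤ a k) {x : Fin d → ℝ}
    (hx : x ∈ cube d) :
    ∏ i, x i ≤ 5 * dev t a x + (4 / (d : ℝ)) * ∑ i, dev t a (half i x) +
      ∑ k, (∏ i, psi (t k i) (x i)) / (107 / 100) ^ d := by
  have hd0 : (0:ℝ) < d := by exact_mod_cast hd
  have hP : 0 ≤ ∏ i, x i := Finset.prod_nonneg fun i _ => hx.1 i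
  have hdev : ∀ y, 0 ≤ dev t a y := fun y => abs_nonneg _
  have hpsi : ∀ k, 0 ≤ (∏ i, psi (t k i) (x i)) / (107 / 100 : ℝ) ^ d := fun k =>
    div_nonneg (Finset.prod_nonneg fun i _ => psi_nonneg (ht k i) _) (by positivity)
  have hsumdev : 0 ≤ (4 / (d : ℝ)) * ∑ i, dev t a (half i x) :=
    mul_nonneg (by positivity) (Finset.sum_nonneg fun i _ => hdev _)
  by_cases hG : ∃ k, t k ≤ x ∧ d ≤ 4 * cl x (t k)
  · obtain ⟨k, hk1, hk2⟩ := hG
    have h1 : ∏ i, x i ≤ (∏ i, psi (t k i) (x i)) / (107 / 100 : ℝ) ^ d := by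
      rw [prod_psi hx hk1, le_div_iff₀ (by positivity)]
      refine mul_le_mul_of_nonneg_left ?_ hP
      calc (107 / 100 : ℝ) ^ d ≤ (107 / 100 : ℝ) ^ (4 * cl x (t k)) :=
            pow_le_pow_right₀ (by norm_num) hk2
        _ = ((107 / 100 : ℝ) ^ 4) ^ cl x (t k) := by rw [pow_mul]
        _ ≤ (4 / 3) ^ cl x (t k) := pow_le_pow_left₀ (by norm_num) (by norm_num) _
    have h2 : (∏ i, psi (t k i) (x i)) / (107 / 100 : ℝ) ^ d ≤
        ∑ k, (∏ i, psi (t k i) (x i)) / (107 / 100 : ℝ) ^ d :=
      Finset.single_le_sum (f := fun k => (∏ i, psi (t k i) (x i)) / (107 / 100 : ℝ) ^ d)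
        (fun k _ => hpsi k) (Finset.mem_univ k)
    linarith [hdev x]
  · push Not at hG
    have h1 : ∑ i, (cdf t a x - cdf t a (half i x)) ≤ (d / 4) * cdf t a x := by
      rw [sum_cdf_sub_half t a hx]
      unfold cdf
      rw [Finset.mul_sum]
      refine Finset.sum_le_sum fun k _ => ?_
      by_cases hk : t k ≤ x
      · rw [indicator_of_mem (mem_Ici.2 hk), mul_comm]
        refine mul_le_mul_of_nonneg_right ?_ (ha k)
        have h2 := hG k hk
        have h3 : (4:ℝ) * (cl x (t k) : ℝ) < d := by exact_mod_cast h2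
        linarith
      · rw [indicator_of_notMem (fun h => hk (mem_Ici.1 h))]; simp
    have h2 : ∀ i, -(dev t a x + dev t a (half i x)) ≤
        (cdf t a x - cdf t a (half i x)) - (∏ j, x j) / 2 := by
      intro i
      have e1 : -dev t a x ≤ cdf t a x - ∏ j, x j := neg_abs_le _
      have e2 : cdf t a (half i x) - (∏ j, x j) / 2 ≤ dev t a (half i x) := by
        have := le_abs_self (cdf t a (half i x) - ∏ j, half i x j)
        rw [prod_half] at this
        unfold dev
        rw [prod_half]
        exact this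
      linarith
    have h3 := Finset.sum_le_sum fun i (_ : i ∈ (Finset.univ : Finset (Fin d))) => h2 i
    rw [Finset.sum_neg_distrib, Finset.sum_add_distrib, Finset.sum_sub_distrib] at h3
    simp only [Finset.sum_const, Finset.card_univ, Fintype.card_fin, nsmul_eq_mul] at h3
    have h4 : cdf t a x ≤ (∏ i, x i) + dev t a x := by
      have := le_abs_self (cdf t a x - ∏ i, x i)
      unfold dev
      linarith
    have h5 : (d / 4) * cdf t a x ≤ (d / 4) * ((∏ i, x i) + dev t a x) :=
      mul_le_mul_of_nonneg_left h4 (by positivity)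
    -- combine
    have h6 : (d:ℝ) * (∏ i, x i) / 4 ≤ (5 / 4) * d * dev t a x + ∑ i, dev t a (half i x) := by
      nlinarith
    have h7 : ∏ i, x i ≤ 5 * dev t a x + (4 / (d : ℝ)) * ∑ i, dev t a (half i x) := by
      have h8 : ∏ i, x i = (4 / (d:ℝ)) * ((d:ℝ) * (∏ i, x i) / 4) := by field_simp
      rw [h8]
      have h9 := mul_le_mul_of_nonneg_left h6 (by positivity : (0:ℝ) ≤ 4 / d)
      refine h9.trans_eq ?_
      field_simp
    have h10 := Finset.sum_nonneg fun k (_ : k ∈ (Finset.univ : Finset (Fin N))) => hpsi k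
    linarith

lemma measurableSet_cube : MeasurableSet (cube d) := isClosed_Icc.measurableSet

lemma measurable_cdf : Measurable (cdf t a) := by
  unfold cdf
  refine Finset.measurable_fun_sum _ fun k _ => ?_
  exact measurable_const.indicator isClosed_Ici.measurableSet

lemma measurable_dev : Measurable (dev t a) := by
  unfold dev
  refine ((measurable_cdf t a).sub ?_).abs
  exact (continuous_finsetProd _ fun i _ => continuous_apply i).measurable

lemma prod_mem {x : Fin d → ℝ} (hx : x ∈ cube d) : 0 ≤ ∏ i, x i ∧ ∏ i, x i ≤ 1 :=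
  ⟨Finset.prod_nonneg fun i _ => hx.1 i, Finset.prod_le_one (fun i _ => hx.1 i) fun i _ => hx.2 i⟩

lemma abs_cdf_le (x : Fin d → ℝ) : |cdf t a x| ≤ ∑ k, |a k| := by
  unfold cdf
  refine (Finset.abs_sum_le_sum_abs _ _).trans (Finset.sum_le_sum fun k _ => ?_)
  by_cases h : x ∈ Ici (t k)
  · rw [indicator_of_mem h]
  · rw [indicator_of_notMem h]; simp

lemma dev_le {x : Fin d → ℝ} (hx : x ∈ cube d) : dev t a x ≤ (∑ k, |a k|) + 1 := by
  unfold dev
  refine (abs_sub _ _).trans ?_
  have h1 := abs_cdf_le t a x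
  have h2 := prod_mem hx
  rw [abs_of_nonneg h2.1]
  linarith [h2.2]

lemma volume_cube_lt_top : volume (cube d) < ⊤ := by
  unfold cube
  exact isCompact_Icc.measure_lt_top

lemma integrableOn_dev : IntegrableOn (dev t a) (cube d) := by
  refine Measure.integrableOn_of_bounded (M := (∑ k, |a k|) + 1) volume_cube_lt_top.ne
    (measurable_dev t a).aestronglyMeasurable ?_
  refine (ae_restrict_iff' measurableSet_cube).2 (Filter.Eventually.of_forall fun x hx => ?_)
  rw [Real.norm_eq_abs, abs_of_nonneg (show 0 ≤ dev t a x from abs_nonneg _)]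
  exact dev_le t a hx

lemma half_mem {x : Fin d → ℝ} (hx : x ∈ cube d) (i : Fin d) : half i x ∈ cube d := by
  unfold half
  constructor
  · intro j
    by_cases hj : j = i
    · subst hj
      simp only [Function.update_self]
      have := hx.1 j
      simp only [Pi.zero_apply] at this ⊢
      linarith
    · rw [Function.update_of_ne hj]; exact hx.1 j
  · intro j
    by_cases hj : j = i
    · subst hj
      simp only [Function.update_self]
      have h1 := hx.1 j
      have h2 := hx.2 j
      simp only [Pi.zero_apply, Pi.one_apply] at h1 h2 ⊢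
      linarith
    · rw [Function.update_of_ne hj]; exact hx.2 j

lemma map_half (i : Fin d) : Measure.map (half i) (volume : Measure (Fin d → ℝ)) =
    (2 : ENNReal) • volume := by
  have h1 : (half i : (Fin d → ℝ) → Fin d → ℝ) =
      Matrix.toLin' (Matrix.diagonal (Function.update (1 : Fin d → ℝ) i (1 / 2))) := by
    ext x j
    rw [Matrix.toLin'_apply, Matrix.mulVec_diagonal]
    unfold half
    by_cases hj : j = i
    · subst hj
      simp only [Function.update_self]; ring
    · rw [Function.update_of_ne hj, Function.update_of_ne hj]; simp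
  have h2 : (Matrix.diagonal (Function.update (1 : Fin d → ℝ) i (1 / 2))).det = 1 / 2 := by
    rw [Matrix.det_diagonal, Finset.prod_update_of_mem (Finset.mem_univ i)]
    simp
  rw [h1, Real.map_matrix_volume_pi_eq_smul_volume_pi (by rw [h2]; norm_num), h2]
  norm_num

lemma measurable_half (i : Fin d) : Measurable (half i : (Fin d → ℝ) → Fin d → ℝ) := by
  unfold half
  rw [measurable_pi_iff]
  intro j
  by_cases hj : j = i
  · subst hj
    simp only [Function.update_self]
    exact (measurable_pi_apply j).div_const _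
  · simp only [Function.update_of_ne hj]
    exact measurable_pi_apply j

lemma integrable_half (i : Fin d) :
    Integrable (fun x => (cube d).indicator (dev t a) (half i x)) := by
  have h1 : Integrable ((cube d).indicator (dev t a)) (Measure.map (half i) volume) := by
    rw [map_half]
    exact ((integrable_indicator_iff measurableSet_cube).2 (integrableOn_dev t a)).smul_measure
      (by norm_num)
  exact h1.comp_measurable (measurable_half i)

lemma integral_half_le (i : Fin d) : ∫ x in cube d, dev t a (half i x) ≤ 2 * disc t a := by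
  have h1 : ∫ x in cube d, dev t a (half i x) =
      ∫ x in cube d, (cube d).indicator (dev t a) (half i x) := by
    refine setIntegral_congr_fun measurableSet_cube fun x hx => ?_
    rw [indicator_of_mem (half_mem hx i)]
  have h2 : ∫ x in cube d, (cube d).indicator (dev t a) (half i x) ≤
      ∫ x, (cube d).indicator (dev t a) (half i x) := by
    refine setIntegral_le_integral (integrable_half t a i) (Filter.Eventually.of_forall fun x => ?_)
    exact indicator_nonneg (fun y _ => abs_nonneg _) _
  have h3 : ∫ x, (cube d).indicator (dev t a) (half i x) = 2 * disc t a := by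
    have h4 : ∫ y, (cube d).indicator (dev t a) y ∂(Measure.map (half i) volume) =
        ∫ x, (cube d).indicator (dev t a) (half i x) := by
      refine integral_map (measurable_half i).aemeasurable ?_
      exact ((measurable_dev t a).indicator measurableSet_cube).aestronglyMeasurable
    rw [← h4, map_half, integral_smul_measure, integral_indicator measurableSet_cube]
    simp [disc]
  rw [h1]
  exact h2.trans h3.le

lemma integral_prod_cube : ∫ x in cube d, ∏ i, x i = (1 / 2 : ℝ) ^ d := by
  have h1 : ∫ x in cube d, ∏ i, x i =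
      ∫ x : Fin d → ℝ, ∏ i, (Icc (0:ℝ) 1).indicator (fun u => u) (x i) := by
    rw [← integral_indicator measurableSet_cube]
    refine integral_congr_ae (Filter.Eventually.of_forall fun x => ?_)
    simp only
    by_cases hx : x ∈ cube d
    · rw [indicator_of_mem hx]
      refine Finset.prod_congr rfl fun i _ => ?_
      rw [indicator_of_mem]
      exact ⟨hx.1 i, hx.2 i⟩
    · rw [indicator_of_notMem hx]
      symm
      have : ∃ i, x i ∉ Icc (0:ℝ) 1 := by
        by_contra hcon
        push Not at hcon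
        exact hx ⟨fun i => (hcon i).1, fun i => (hcon i).2⟩
      obtain ⟨i, hi⟩ := this
      exact Finset.prod_eq_zero (Finset.mem_univ i) (indicator_of_notMem hi _)
  rw [h1, integral_fintype_prod_volume_eq_prod (fun _ => (Icc (0:ℝ) 1).indicator (fun u => u))]
  have h2 : ∫ u, (Icc (0:ℝ) 1).indicator (fun u => u) u = 1 / 2 := by
    rw [integral_indicator measurableSet_Icc, integral_Icc_eq_integral_Ioc,
      ← intervalIntegral.integral_of_le zero_le_one, integral_id]
    norm_num
  rw [h2, Finset.prod_const, Finset.card_univ, Fintype.card_fin]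

lemma integrable_psi (s : ℝ) : Integrable (psi s) := by
  have h1 : Measurable (psi s) := by
    unfold psi
    refine Measurable.indicator ?_ measurableSet_Icc
    refine measurable_id.mul ?_
    exact Measurable.ite measurableSet_Iio measurable_const measurable_const
  have h2 : psi s = (Icc s 1).indicator (psi s) := by
    unfold psi
    rw [indicator_indicator, inter_self]
  rw [h2, integrable_indicator_iff measurableSet_Icc]
  refine Measure.integrableOn_of_bounded (M := (|s| + 1) * (4 / 3)) isCompact_Icc.measure_lt_top.ne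
    h1.aestronglyMeasurable ?_
  refine (ae_restrict_iff' measurableSet_Icc).2 (Filter.Eventually.of_forall fun u hu => ?_)
  unfold psi
  rw [indicator_of_mem hu, norm_mul]
  have h3 : ‖u‖ ≤ |s| + 1 := by
    rw [Real.norm_eq_abs, abs_le]
    constructor
    · linarith [hu.1, neg_abs_le s]
    · linarith [hu.2, abs_nonneg s]
  have h4 : ‖(if u < 2 * s then (4:ℝ) / 3 else 1)‖ ≤ 4 / 3 := by
    split_ifs <;> norm_num
  exact mul_le_mul h3 h4 (norm_nonneg _) (by positivity)

lemma integral_prod_psi_le {s : Fin d → ℝ} (hs : ∀ i, 0 ≤ s i) :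
    ∫ x in cube d, ∏ i, psi (s i) (x i) ≤ (1 / 2 : ℝ) ^ d := by
  have h1 : Integrable fun x : Fin d → ℝ => ∏ i, psi (s i) (x i) :=
    Integrable.fintype_prod fun i => integrable_psi (s i)
  refine (setIntegral_le_integral h1 (Filter.Eventually.of_forall fun x =>
    Finset.prod_nonneg fun i _ => psi_nonneg (hs i) _)).trans ?_
  rw [integral_fintype_prod_volume_eq_prod (fun i => psi (s i))]
  refine (Finset.prod_le_prod (fun i _ => integral_nonneg fun u => psi_nonneg (hs i) u)
    fun i _ => integral_psi_le (hs i)).trans ?_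
  simp

/-- **Key estimate**: `1 ≤ 13 · 2^d · disc + N / 1.07^d`. -/
theorem key (hd : 1 ≤ d) (ht : ∀ k i, 0 ≤ t k i) (ha : ∀ k, 0 ≤ a k) :
    1 ≤ 13 * 2 ^ d * disc t a + N / (107 / 100 : ℝ) ^ d := by
  have hd0 : (0:ℝ) < d := by exact_mod_cast hd
  have hi1 : IntegrableOn (fun x : Fin d → ℝ => ∏ i, x i) (cube d) := by
    refine Continuous.integrableOn_Icc ?_
    exact continuous_finsetProd _ fun i _ => continuous_apply i
  have hi2 := integrableOn_dev t a
  have hi3 : ∀ i, IntegrableOn (fun x => dev t a (half i x)) (cube d) := fun i => by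
    have := (integrable_half t a i).integrableOn (s := cube d)
    refine this.congr_fun (fun x hx => ?_) measurableSet_cube
    simp only
    rw [indicator_of_mem (half_mem hx i)]
  have hi4 : ∀ k, IntegrableOn (fun x : Fin d → ℝ => (∏ i, psi (t k i) (x i)) / (107 / 100 : ℝ) ^ d)
      (cube d) := fun k =>
    ((Integrable.fintype_prod fun i => integrable_psi (t k i)).integrableOn).div_const _
  have hi5 : IntegrableOn (fun x => 5 * dev t a x + (4 / (d : ℝ)) * ∑ i, dev t a (half i x))
      (cube d) :=
    (hi2.const_mul 5).add ((integrable_finsetSum _ fun i _ => hi3 i).const_mul _)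
  have hi6 : IntegrableOn (fun x : Fin d → ℝ =>
      ∑ k, (∏ i, psi (t k i) (x i)) / (107 / 100 : ℝ) ^ d) (cube d) :=
    integrable_finsetSum _ fun k _ => hi4 k
  have h1 := setIntegral_mono_on hi1 (hi5.add hi6) measurableSet_cube
    fun x hx => pointwise t a hd ht ha hx
  have h2 : ∫ x in cube d, ((fun x => 5 * dev t a x + (4 / (d : ℝ)) * ∑ i, dev t a (half i x)) +
      fun x : Fin d → ℝ => ∑ k, (∏ i, psi (t k i) (x i)) / (107 / 100 : ℝ) ^ d) x =
      (5 * disc t a + (4 / (d:ℝ)) * ∑ i, ∫ x in cube d, dev t a (half i x)) +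
        ∑ k, (∫ x in cube d, ∏ i, psi (t k i) (x i)) / (107 / 100 : ℝ) ^ d := by
    rw [integral_add' hi5 hi6, integral_add (hi2.const_mul 5)
      ((integrable_finsetSum _ fun i _ => hi3 i).const_mul _), integral_const_mul,
      integral_const_mul, integral_finsetSum _ fun i _ => hi3 i,
      integral_finsetSum _ fun k _ => hi4 k]
    simp only [integral_div]
    rfl
  rw [integral_prod_cube] at h1
  have h1' := h1.trans_eq h2
  have h3 : (4 / (d:ℝ)) * ∑ i, ∫ x in cube d, dev t a (half i x) ≤ 8 * disc t a := by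
    have h4 : ∑ i : Fin d, ∫ x in cube d, dev t a (half i x) ≤ ∑ _i : Fin d, 2 * disc t a :=
      Finset.sum_le_sum fun i _ => integral_half_le t a i
    rw [Finset.sum_const, Finset.card_univ, Fintype.card_fin, nsmul_eq_mul] at h4
    refine (mul_le_mul_of_nonneg_left h4 (by positivity : (0:ℝ) ≤ 4 / d)).trans_eq ?_
    field_simp
    ring
  have h5 : ∑ k, (∫ x in cube d, ∏ i, psi (t k i) (x i)) / (107 / 100 : ℝ) ^ d ≤
      N * ((1 / 2) ^ d / (107 / 100 : ℝ) ^ d) := by
    have h6 : ∑ k, (∫ x in cube d, ∏ i, psi (t k i) (x i)) / (107 / 100 : ℝ) ^ d ≤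
        ∑ _k : Fin N, ((1 / 2) ^ d / (107 / 100 : ℝ) ^ d) :=
      Finset.sum_le_sum fun k _ => div_le_div_of_nonneg_right (integral_prod_psi_le (ht k))
        (by positivity)
    rwa [Finset.sum_const, Finset.card_univ, Fintype.card_fin, nsmul_eq_mul] at h6
  have h7 : (1 / 2 : ℝ) ^ d ≤ 13 * disc t a + N * ((1 / 2) ^ d / (107 / 100 : ℝ) ^ d) := by
    linarith
  have h8 := mul_le_mul_of_nonneg_left h7 (by positivity : (0:ℝ) ≤ 2 ^ d)
  have h9 : (2:ℝ) ^ d * (1 / 2) ^ d = 1 := by rw [← mul_pow]; norm_num
  calc (1:ℝ) = 2 ^ d * (1 / 2) ^ d := h9.symm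
    _ ≤ _ := h8
    _ = 13 * 2 ^ d * disc t a + N * (2 ^ d * (1 / 2) ^ d) / (107 / 100 : ℝ) ^ d := by ring
    _ = _ := by rw [h9, mul_one]

end pointwise

end Pool.Agent.Zk73.L1
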