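import Pool.Agent.Zk73.L1.Disc

/-!
# The worst-case error of quadrature formulas on `F_{d,∞}`
-/

set_option autoImplicit false

open MeasureTheory Set
open scoped ENNReal

namespace Pool.Agent.Zk73.L1

/-- The unit ball of `F_{d,∞}`: the functions on the cube of the form
`f(x) = ∫_{[x,1]} g` with `g` measurable and bounded by one (`g` is, up to the sign `(-1)^d`, the
mixed derivative `∂^d f / ∂x_1 ⋯ ∂x_d`; `f` vanishes when a coordinate is `1`). -/
def UnitBallF (d : ℕ) : Set ((Fin d → ℝ) → ℝ) :=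
  {f | ∃ g : (Fin d → ℝ) → ℝ, Measurable g ∧ (∀ x, |g x| ≤ 1) ∧
    ∀ x ∈ cube d, f x = ∫ y in Icc x 1, g y}

/-- Worst-case error over the unit ball of `F_{d,∞}` of the quadrature formula with nodes `t` and
weights `a`. -/
noncomputable def wce {d N : ℕ} (t : Fin N → Fin d → ℝ) (a : Fin N → ℝ) : ℝ≥0∞ :=
  ⨆ f ∈ UnitBallF d, ENNReal.ofReal |(∫ x in cube d, f x) - ∑ k, a k * f (t k)|

/-- `e⁺(N, d)`: the infimum of the worst-case error over all formulas with `N` nodes in `[0,1)^d` and
nonnegative weights. -/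
noncomputable def ePlus (N d : ℕ) : ℝ≥0∞ :=
  ⨅ (t : Fin N → Fin d → ℝ) (_ : ∀ k i, t k i ∈ Ico (0:ℝ) 1) (a : Fin N → ℝ) (_ : ∀ k, 0 ≤ a k),
    wce t a

/-- `N⁺(ε, d)`: the least `N` with `e⁺(N, d) ≤ ε 2^{-d}`. -/
noncomputable def NPlus (ε : ℝ) (d : ℕ) : ℕ∞ :=
  ⨅ (N : ℕ) (_ : ePlus N d ≤ ENNReal.ofReal (ε / 2 ^ d)), (N : ℕ∞)

variable {d N : ℕ} (t : Fin N → Fin d → ℝ) (a : Fin N → ℝ)

/-- The extremal mixed derivative. -/
noncomputable def sgn (x : Fin d → ℝ) : ℝ := if cdf t a x ≤ ∏ i, x i then 1 else -1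

lemma measurable_prodcoord : Measurable fun x : Fin d → ℝ => ∏ i, x i :=
  (continuous_finsetProd _ fun i _ => continuous_apply i).measurable

lemma measurable_sgn : Measurable (sgn t a) := by
  unfold sgn
  exact Measurable.ite (measurableSet_le (measurable_cdf t a) measurable_prodcoord)
    measurable_const measurable_const

lemma abs_sgn (x : Fin d → ℝ) : |sgn t a x| ≤ 1 := by
  unfold sgn
  split_ifs <;> norm_num

lemma sgn_mul (x : Fin d → ℝ) : sgn t a x * ((∏ i, x i) - cdf t a x) = dev t a x := by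
  unfold sgn dev
  split_ifs with h
  · rw [one_mul, abs_sub_comm, abs_of_nonneg (sub_nonneg.2 h)]
  · rw [abs_of_pos (sub_pos.2 (not_le.1 h))]; ring

/-- The function `x ↦ ∫_{[x,1]} g`. -/
noncomputable def prim (g : (Fin d → ℝ) → ℝ) (x : Fin d → ℝ) : ℝ := ∫ y in Icc x 1, g y

lemma Icc_eq_cube_inter {x : Fin d → ℝ} (hx : 0 ≤ x) : Icc x 1 = cube d ∩ Ici x := by
  ext y
  constructor
  · rintro ⟨h1, h2⟩
    exact ⟨⟨hx.trans h1, h2⟩, h1⟩
  · rintro ⟨⟨_, h2⟩, h1⟩
    exact ⟨h1, h2⟩

lemma prim_eq (g : (Fin d → ℝ) → ℝ) {x : Fin d → ℝ} (hx : 0 ≤ x) :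
    prim g x = ∫ y in cube d, (Ici x).indicator g y := by
  unfold prim
  rw [Icc_eq_cube_inter hx, setIntegral_indicator isClosed_Ici.measurableSet]

lemma volume_cube_inter_Iic {y : Fin d → ℝ} (hy : y ∈ cube d) :
    volume.real (cube d ∩ Iic y) = ∏ i, y i := by
  have h1 : cube d ∩ Iic y = Icc 0 y := by
    ext x
    constructor
    · rintro ⟨⟨h1, _⟩, h2⟩
      exact ⟨h1, h2⟩
    · rintro ⟨h1, h2⟩
      exact ⟨⟨h1, h2.trans hy.2⟩, h2⟩
  rw [h1]
  unfold Measure.real
  rw [Real.volume_Icc_pi_toReal hy.1]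
  simp

/-- Fubini. -/
lemma integral_prim (g : (Fin d → ℝ) → ℝ) (hg : Measurable g) (hg1 : ∀ x, |g x| ≤ 1) :
    ∫ x in cube d, prim g x = ∫ y in cube d, g y * ∏ i, y i := by
  have h1 : ∫ x in cube d, prim g x = ∫ x in cube d, ∫ y in cube d, (Ici x).indicator g y := by
    refine setIntegral_congr_fun measurableSet_cube fun x hx => ?_
    exact prim_eq g hx.1
  rw [h1]
  have hmeas : Measurable (fun p : (Fin d → ℝ) × (Fin d → ℝ) => (Ici p.1).indicator g p.2) := by
    have : (fun p : (Fin d → ℝ) × (Fin d → ℝ) => (Ici p.1).indicator g p.2) =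
        {p : (Fin d → ℝ) × (Fin d → ℝ) | p.1 ≤ p.2}.indicator fun p => g p.2 := by
      ext p
      by_cases h : p.1 ≤ p.2
      · rw [indicator_of_mem (show p.2 ∈ Ici p.1 from h),
          indicator_of_mem (show p ∈ {p : (Fin d → ℝ) × (Fin d → ℝ) | p.1 ≤ p.2} from h)]
      · rw [indicator_of_notMem (show p.2 ∉ Ici p.1 from h),
          indicator_of_notMem (show p ∉ {p : (Fin d → ℝ) × (Fin d → ℝ) | p.1 ≤ p.2} from h)]
    rw [this]
    exact (hg.comp measurable_snd).indicator
      (isClosed_le continuous_fst continuous_snd).measurableSet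
  have : IsFiniteMeasure ((volume : Measure (Fin d → ℝ)).restrict (cube d)) :=
    ⟨by rw [Measure.restrict_apply_univ]; exact volume_cube_lt_top⟩
  have hint : Integrable (Function.uncurry fun x y : Fin d → ℝ => (Ici x).indicator g y)
      (((volume : Measure (Fin d → ℝ)).restrict (cube d)).prod
        ((volume : Measure (Fin d → ℝ)).restrict (cube d))) := by
    refine Integrable.of_bound (C := 1) hmeas.aestronglyMeasurable
      (Filter.Eventually.of_forall fun p => ?_)
    simp only [Function.uncurry]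
    by_cases h : p.2 ∈ Ici p.1
    · rw [indicator_of_mem h]; exact hg1 _
    · rw [indicator_of_notMem h]; simp
  rw [integral_integral_swap hint]
  refine setIntegral_congr_fun measurableSet_cube fun y hy => ?_
  have h2 : ∀ x : Fin d → ℝ, (Ici x).indicator g y = (Iic y).indicator (fun _ => g y) x := by
    intro x
    by_cases h : x ≤ y
    · rw [indicator_of_mem (mem_Ici.2 h), indicator_of_mem (mem_Iic.2 h)]
    · rw [indicator_of_notMem (fun h' => h (mem_Ici.1 h')),
        indicator_of_notMem (fun h' => h (mem_Iic.1 h'))]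
  simp only [h2]
  rw [setIntegral_indicator isClosed_Iic.measurableSet, setIntegral_const,
    volume_cube_inter_Iic hy, smul_eq_mul, mul_comm]

/-- The worst-case error is at least the discrepancy. -/
lemma disc_le_wce (ht : ∀ k i, t k i ∈ Ico (0:ℝ) 1) :
    ENNReal.ofReal (disc t a) ≤ wce t a := by
  have hmem : prim (sgn t a) ∈ UnitBallF d :=
    ⟨sgn t a, measurable_sgn t a, abs_sgn t a, fun x _ => rfl⟩
  have hval : (∫ x in cube d, prim (sgn t a) x) - ∑ k, a k * prim (sgn t a) (t k) = disc t a := by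
    rw [integral_prim _ (measurable_sgn t a) (abs_sgn t a)]
    have h1 : ∀ k, a k * prim (sgn t a) (t k) =
        ∫ y in cube d, sgn t a y * (Ici (t k)).indicator (fun _ => a k) y := by
      intro k
      rw [prim_eq _ (fun i => (ht k i).1), ← integral_const_mul]
      refine setIntegral_congr_fun measurableSet_cube fun y _ => ?_
      by_cases h : y ∈ Ici (t k)
      · simp only [indicator_of_mem h]; ring
      · simp only [indicator_of_notMem h]; ring
    have hi1 : IntegrableOn (fun y => sgn t a y * ∏ i, y i) (cube d) := by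
      refine Measure.integrableOn_of_bounded (M := 1) volume_cube_lt_top.ne
        ((measurable_sgn t a).mul measurable_prodcoord).aestronglyMeasurable ?_
      refine (ae_restrict_iff' measurableSet_cube).2 (Filter.Eventually.of_forall fun x hx => ?_)
      rw [norm_mul, Real.norm_eq_abs, Real.norm_eq_abs]
      have h2 := prod_mem hx
      rw [abs_of_nonneg h2.1]
      exact mul_le_one₀ (abs_sgn t a x) h2.1 h2.2
    have hi2 : ∀ k, IntegrableOn (fun y => sgn t a y * (Ici (t k)).indicator (fun _ => a k) y)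
        (cube d) := by
      intro k
      refine Measure.integrableOn_of_bounded (M := |a k|) volume_cube_lt_top.ne
        ((measurable_sgn t a).mul
          (measurable_const.indicator isClosed_Ici.measurableSet)).aestronglyMeasurable ?_
      refine (ae_restrict_iff' measurableSet_cube).2 (Filter.Eventually.of_forall fun x hx => ?_)
      rw [norm_mul, Real.norm_eq_abs, Real.norm_eq_abs]
      have h2 : |(Ici (t k)).indicator (fun _ => a k) x| ≤ |a k| := by
        by_cases h : x ∈ Ici (t k)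
        · rw [indicator_of_mem h]
        · rw [indicator_of_notMem h]; simp
      calc |sgn t a x| * |(Ici (t k)).indicator (fun _ => a k) x| ≤ 1 * |a k| :=
            mul_le_mul (abs_sgn t a x) h2 (abs_nonneg _) zero_le_one
        _ = |a k| := one_mul _
    simp only [h1]
    rw [← integral_finsetSum _ fun k _ => hi2 k, ← integral_sub hi1
      (integrable_finsetSum _ fun k _ => hi2 k)]
    unfold disc
    refine setIntegral_congr_fun measurableSet_cube fun y _ => ?_
    rw [← sgn_mul, mul_sub, ← Finset.mul_sum]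
    rfl
  unfold wce
  refine le_iSup₂_of_le (prim (sgn t a)) hmem ?_
  rw [hval]
  exact ENNReal.ofReal_le_ofReal (le_abs_self _)

/-- `N⁺(ε, d) ≥ (1 - 13 ε) 1.07^d`. -/
theorem nPlus_ge (ε : ℝ) (hε : 0 ≤ ε) (d : ℕ) (hd : 1 ≤ d) :
    ENNReal.ofReal ((1 - 13 * ε) * (107 / 100) ^ d) ≤ ((NPlus ε d : ℕ∞) : ℝ≥0∞) := by
  have key2 : ∀ N : ℕ, ePlus N d ≤ ENNReal.ofReal (ε / 2 ^ d) →
      (1 - 13 * ε) * (107 / 100) ^ d ≤ (N : ℝ) := by
    intro N hN
    by_contra hcon
    push Not at hcon
    set q : ℝ := (107 / 100) ^ d with hq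
    have hq0 : 0 < q := by positivity
    -- every formula has discrepancy at least `(1 - N / q) / (13 * 2 ^ d)`
    have h1 : ENNReal.ofReal ((1 - N / q) / (13 * 2 ^ d)) ≤ ePlus N d := by
      unfold ePlus
      refine le_iInf fun t => le_iInf fun ht => le_iInf fun a => le_iInf fun ha => ?_
      refine le_trans (ENNReal.ofReal_le_ofReal ?_) (disc_le_wce t a ht)
      rw [div_le_iff₀ (by positivity)]
      have := key t a hd (fun k i => (ht k i).1) ha
      rw [← hq] at this
      linarith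
    have h2 := h1.trans hN
    have h3 : ε / 2 ^ d < (1 - N / q) / (13 * 2 ^ d) := by
      rw [div_lt_div_iff₀ (by positivity) (by positivity)]
      have h4 : (N:ℝ) / q < 1 - 13 * ε := by rwa [div_lt_iff₀ hq0]
      have h5 : (0:ℝ) < 2 ^ d := by positivity
      nlinarith
    have h6 : ENNReal.ofReal (ε / 2 ^ d) < ENNReal.ofReal ((1 - N / q) / (13 * 2 ^ d)) := by
      rw [ENNReal.ofReal_lt_ofReal_iff (lt_of_le_of_lt (by positivity) h3)]
      exact h3
    exact absurd h2 (not_le.2 h6)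
  unfold NPlus
  rcases lt_or_ge ((1 - 13 * ε) * (107 / 100 : ℝ) ^ d) 0 with hneg | hpos
  · rw [ENNReal.ofReal_of_nonpos hneg.le]; exact bot_le
  -- use the ceiling
  have h1 : ((⌈(1 - 13 * ε) * (107 / 100 : ℝ) ^ d⌉₊ : ℕ) : ℕ∞) ≤
      ⨅ (N : ℕ) (_ : ePlus N d ≤ ENNReal.ofReal (ε / 2 ^ d)), (N : ℕ∞) := by
    refine le_iInf fun N => le_iInf fun hN => ?_
    have := key2 N hN
    exact_mod_cast Nat.ceil_le.2 this
  have h2 : ENNReal.ofReal ((1 - 13 * ε) * (107 / 100) ^ d) ≤
      (((⌈(1 - 13 * ε) * (107 / 100 : ℝ) ^ d⌉₊ : ℕ) : ℕ∞) : ℝ≥0∞) := by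
    have h3 := Nat.le_ceil ((1 - 13 * ε) * (107 / 100 : ℝ) ^ d)
    refine (ENNReal.ofReal_le_ofReal h3).trans_eq ?_
    simp
  refine h2.trans ?_
  exact_mod_cast h1

end Pool.Agent.Zk73.L1
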